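import Pool.Agent.H572R4.Stmts

/-! # H572-PI task E2: complexity of `Good` (helper471) -/

set_option autoImplicit false

namespace Pool.Agent.H572R4

open Pool.Agent.Helper446.Defs Pool.Agent.Helper446.CB Pool.Agent.Helper446.CB.Ix
open Pool.Agent.Helper446

namespace E2Aux

/-- `τ` extends an element of the list -/
def E (l : List (List Bool)) (τ : List Bool) : Prop := ∃ σ ∈ l, τ.take σ.length = σ

/-- `τ` is long -/
def Ln (l : List (List Bool)) (τ : List Bool) : Prop := ∀ σ ∈ l, σ.length ≤ τ.length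

/-- the condition at `τ` -/
def BB (l : List (List Bool)) (e : ℕ) (l' : List (List Bool)) (τ : List Bool) : Prop :=
  Ln l τ → Ln l' τ → (E l' τ → E l τ) ∧
    (E l τ → E l' τ ∨ ∀ k < τ.length + 1, ¬ Wd e (τ.take k))

theorem mem_cylS_iff {l : List (List Bool)} {x : ℕ → Bool} {n : ℕ} (h : Ln l (seg x n)) :
    x ∈ cylS l ↔ E l (seg x n) := by
  constructor
  · rintro ⟨σ, hσ, h1⟩
    refine ⟨σ, hσ, ?_⟩
    have h2 := h σ hσ
    rw [seg_length] at h2
    rw [seg_take x h2, h1]
  · rintro ⟨σ, hσ, h1⟩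
    have h2 := h σ hσ
    rw [seg_length] at h2
    rw [seg_take x h2] at h1
    exact ⟨σ, hσ, h1⟩

theorem bound (l : List (List Bool)) : ∃ N, ∀ σ ∈ l, σ.length ≤ N := by
  induction l with
  | nil => exact ⟨0, by simp⟩
  | cons a l ih =>
    obtain ⟨N, hN⟩ := ih
    refine ⟨a.length + N, fun σ hσ => ?_⟩
    rcases List.mem_cons.1 hσ with h | h
    · rw [h]; omega
    · have := hN σ h
      omega

theorem exists_seg (τ : List Bool) : ∃ x : ℕ → Bool, seg x τ.length = τ := by
  refine ⟨fun i => τ.getD i false, ?_⟩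
  refine List.ext_getElem (by simp [seg]) ?_
  intro i h1 h2
  simp [seg, List.getD_eq_getElem?_getD, h2]

theorem disj_iff (l' : List (List Bool)) (e : ℕ) :
    cylS l' ∩ (idx e).1 = ∅ ↔ ∀ σ ∈ l', σ ∉ Ext (idx e).1 := by
  constructor
  · intro h σ hσ hE
    obtain ⟨x, hx, hx2⟩ := hE
    have : x ∈ cylS l' ∩ (idx e).1 := ⟨⟨σ, hσ, hx2⟩, hx⟩
    rw [h] at this
    exact this
  · intro h
    refine Set.eq_empty_of_forall_notMem ?_
    rintro x ⟨⟨σ, hσ, hx2⟩, hx⟩
    exact h σ hσ ⟨x, hx, hx2⟩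

theorem eq_iff (l l' : List (List Bool)) (e : ℕ) :
    cylS l = (cylS l ∩ (idx e).1) ∪ cylS l' ↔ ∀ τ, BB l e l' τ := by
  constructor
  · intro h τ
    obtain ⟨x, hx⟩ := exists_seg τ
    rw [← hx]
    generalize τ.length = n
    intro h1 h2
    refine ⟨fun h3 => ?_, fun h3 => ?_⟩
    · have h4 : x ∈ cylS l := by
        rw [h]
        exact Or.inr ((mem_cylS_iff h2).2 h3)
      exact (mem_cylS_iff h1).1 h4
    · have h4 : x ∈ cylS l := (mem_cylS_iff h1).2 h3
      rw [h] at h4
      rcases h4 with h4 | h4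
      · right
        intro k hk
        rw [seg_length] at hk
        rw [seg_take x (by omega)]
        exact h4.2 k
      · left
        exact (mem_cylS_iff h2).1 h4
  · intro h
    obtain ⟨N, hN⟩ := bound l
    obtain ⟨N', hN'⟩ := bound l'
    have hL : ∀ (x : ℕ → Bool) n, N + N' ≤ n → Ln l (seg x n) ∧ Ln l' (seg x n) := by
      intro x n hn
      refine ⟨fun σ hσ => ?_, fun σ hσ => ?_⟩
      · rw [seg_length]
        have := hN σ hσ
        omega
      · rw [seg_length]
        have := hN' σ hσ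
        omega
    ext x
    constructor
    · intro hx
      by_cases hx' : x ∈ cylS l'
      · exact Or.inr hx'
      · refine Or.inl ⟨hx, fun n => ?_⟩
        obtain ⟨h1, h2⟩ := hL x (n + (N + N')) (by omega)
        rcases (h (seg x (n + (N + N'))) h1 h2).2 ((mem_cylS_iff h1).1 hx) with h3 | h3
        · exact absurd ((mem_cylS_iff h2).2 h3) hx'
        · have h4 := h3 n (by rw [seg_length]; omega)
          rwa [seg_take x (by omega)] at h4
    · rintro (hx | hx)
      · exact hx.1
      · obtain ⟨h1, h2⟩ := hL x (N + N') le_rfl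
        exact (mem_cylS_iff h1).2 ((h (seg x (N + N')) h1 h2).1 ((mem_cylS_iff h2).1 hx))

theorem cp_E : ComputablePred fun x : List (List Bool) × List Bool => E x.1 x.2 := by
  refine cp_bex (p := fun (x : List (List Bool) × List Bool) (σ : List Bool) =>
    x.2.take σ.length = σ) ?_ (l := fun x => x.1) (by fun_prop)
  refine RE.cp_eq (f := fun y : (List (List Bool) × List Bool) × List Bool =>
    y.1.2.take y.2.length) (g := fun y => y.2) (ctake (by fun_prop) (by fun_prop)) (by fun_prop)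

theorem cp_Ln : ComputablePred fun x : List (List Bool) × List Bool => Ln x.1 x.2 := by
  refine cp_ball (p := fun (x : List (List Bool) × List Bool) (σ : List Bool) =>
    σ.length ≤ x.2.length) ?_ (l := fun x => x.1) (by fun_prop)
  exact RE.cp_le (f := fun y : (List (List Bool) × List Bool) × List Bool => y.2.length)
    (g := fun y => y.1.2.length) (by fun_prop) (by fun_prop)

theorem pi_BB : Pi (0 + 1) fun z : ((List (List Bool) × ℕ) × List (List Bool)) × List Bool =>
    BB z.1.1.1 z.1.1.2 z.1.2 z.2 := by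
  have c1 : Computable fun z : ((List (List Bool) × ℕ) × List (List Bool)) × List Bool =>
      (z.1.1.1, z.2) := by fun_prop
  have c2 : Computable fun z : ((List (List Bool) × ℕ) × List (List Bool)) × List Bool =>
      (z.1.2, z.2) := by fun_prop
  have e1 := RE.cp_comp cp_E c1
  have e2 := RE.cp_comp cp_E c2
  have l1 := RE.cp_comp cp_Ln c1
  have l2 := RE.cp_comp cp_Ln c2
  refine Pi.imp (Sig.of_cp l1) (Pi.imp (Sig.of_cp l2) (Pi.and ?_ ?_))
  · exact Pi.imp (Sig.of_cp e2) (Pi.of_cp e1)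
  · refine Pi.imp (Sig.of_cp e1) (Pi.or (Pi.of_cp e2) ?_)
    refine Pi.all_lt (p := fun (z : ((List (List Bool) × ℕ) × List (List Bool)) × List Bool) k =>
      ¬ Wd z.1.1.2 (z.2.take k)) ?_ (by fun_prop)
    have hW : Pi (0 + 1) fun x : ℕ × List Bool => ¬ Wd x.1 x.2 := by
      rw [zero_add, pi_one]
      simpa using wd_re
    refine hW.comp (f := fun y : (((List (List Bool) × ℕ) × List (List Bool)) × List Bool) × ℕ =>
      (y.1.1.1.2, y.1.2.take y.2)) ?_
    exact Computable.pair (by fun_prop) (ctake (by fun_prop) (by fun_prop))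

end E2Aux

open E2Aux in
theorem taskE2 : TaskE2 := by
  intro h1 cy hcy
  have key : ∀ x : List (List Bool) × ℕ, Good (cy x.1) (ix x.2) ↔
      ∃ l' : List (List Bool), (∀ σ ∈ l', σ ∉ Ext (idx x.2).1) ∧ ∀ τ, BB x.1 x.2 l' τ := by
    rintro ⟨l, e⟩
    dsimp only
    constructor
    · rintro ⟨d, hd, hd1, hd2⟩
      obtain ⟨l', hl'⟩ := (h1 d).1 hd
      refine ⟨l', (disj_iff l' e).1 ?_, (eq_iff l l' e).1 ?_⟩
      · have := congrArg Subtype.val hd1
        rw [lb_inf, lb_bot, hl'] at this
        exact this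
      · have := congrArg Subtype.val hd2
        rw [lb_sup, lb_inf, hl', hcy] at this
        exact this
    · rintro ⟨l', h2, h3⟩
      refine ⟨cy l', (h1 _).2 ⟨l', hcy l'⟩, Subtype.ext ?_, Subtype.ext ?_⟩
      · rw [lb_inf, lb_bot, hcy]
        exact (disj_iff l' e).2 h2
      · rw [lb_sup, lb_inf, hcy, hcy]
        exact (eq_iff l l' e).2 h3
  refine Sig.of_iff ?_ fun x => (key x).symm
  refine Sig.ex (n := 1) (p := fun (x : List (List Bool) × ℕ) (l' : List (List Bool)) =>
    (∀ σ ∈ l', σ ∉ Ext (idx x.2).1) ∧ ∀ τ, BB x.1 x.2 l' τ) ?_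
  refine Sig.and (Sig.succ ?_) (Pi.sig ?_)
  · refine Sig.ball (p := fun (y : (List (List Bool) × ℕ) × List (List Bool)) (σ : List Bool) =>
      σ ∉ Ext (idx y.1.2).1) ?_ (l := fun y => y.2) (by fun_prop)
    exact (idx_ClF.ext.not).comp
      (f := fun z : ((List (List Bool) × ℕ) × List (List Bool)) × List Bool => (z.1.1.2, z.2))
      (by fun_prop)
  · exact Pi.all (n := 0) (p := fun (y : (List (List Bool) × ℕ) × List (List Bool))
      (τ : List Bool) => BB y.1.1 y.1.2 y.2 τ) pi_BB

end Pool.Agent.H572R4
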